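import Mathlib

namespace Pool.Agent.Results.MP_67b65f_an.Ball

open Set Filter Topology MeasureTheory Real

variable {E : Type} [NormedAddCommGroup E] [InnerProductSpace ℝ E]

/-- `Traj p v t x`: the photon leaving `p` with velocity `v` in the unit ball is defined on
`[0, t]` (finitely many reflections, none tangent) and is at `x` at time `t`.  At a boundary
point `q` (unit normal `q`) the velocity `v` becomes `v - 2 ⟪v, q⟫ q`. -/
inductive Traj : E → E → ℝ → E → Prop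
  | free (p v : E) (t : ℝ) : 0 ≤ t → (∀ s ∈ Ioo 0 t, ‖p + s • v‖ < 1) → ‖p + t • v‖ ≤ 1 →
      Traj p v t (p + t • v)
  | bounce (p v x : E) (s t : ℝ) : 0 < s → (∀ r ∈ Ioo 0 s, ‖p + r • v‖ < 1) →
      ‖p + s • v‖ = 1 → inner ℝ v (p + s • v) ≠ 0 →
      Traj (p + s • v) (v - (2 * inner ℝ v (p + s • v)) • (p + s • v)) t x →
      Traj p v (s + t) x

/-- the time-`t` front from `P` -/
def Front (P : E) (t : ℝ) : Set E := {x | ∃ v, ‖v‖ = 1 ∧ Traj P v t x}

/-- every nonempty open subset of the ball meets the front for all large times -/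
def BecomesDense (P : E) : Prop :=
  ∀ U : Set E, IsOpen U → U.Nonempty → U ⊆ Metric.ball 0 1 →
    ∃ T, ∀ t ≥ T, (Front P t ∩ U).Nonempty

lemma walk {u : ℕ → ℝ} {M : ℕ} {ε : ℝ} (hε : 0 < ε) (hM : 2 * π ≤ M * (ε / 2))
    (h : ∀ j < M, ε / 2 ≤ u (j + 1) - u j ∧ u (j + 1) - u j ≤ ε) (c : ℝ) :
    ∃ j ≤ M, ∃ m : ℤ, |u j - c - m * (2 * π)| ≤ ε := by
  classical
  have hp : 0 < 2 * π := by positivity
  have g : ∀ j ≤ M, u 0 + j * (ε / 2) ≤ u j := by
    intro j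
    induction j with
    | zero => simp
    | succ j ih => intro hj; have := ih (by omega); have := (h j (by omega)).1; push_cast; linarith
  obtain ⟨m, m1, m2⟩ : ∃ m : ℤ, u 0 - c ≤ m * (2 * π) ∧ m * (2 * π) ≤ u 0 - c + 2 * π := by
    refine ⟨⌈(u 0 - c) / (2 * π)⌉, (div_le_iff₀ hp).1 (Int.le_ceil _), ?_⟩
    have := (Int.ceil_lt_add_one ((u 0 - c) / (2 * π))).le
    rw [div_add_one hp.ne', le_div_iff₀ hp] at this
    exact this
  have ex : ∃ j, j ≤ M ∧ c + m * (2 * π) ≤ u j := ⟨M, le_rfl, by linarith [g M le_rfl]⟩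
  refine ⟨Nat.find ex, (Nat.find_spec ex).1, m, ?_⟩
  have a := Nat.find_spec ex
  rw [abs_le]
  refine ⟨by linarith [a.2], ?_⟩
  rcases e : Nat.find ex with _ | j
  · linarith
  · have b := Nat.find_min ex (m := j) (by omega)
    rw [e] at a
    have := (h j (by omega)).2
    have := not_le.1 fun d => b ⟨by omega, d⟩
    linarith

noncomputable def D (φ : ℝ) : ℝ := π + 2 * φ + 2 * cos φ / sin φ

lemma cos_half {φ : ℝ} (h0 : 0 < φ) (h1 : φ ≤ 1) : 1 / 2 ≤ cos φ := by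
  nlinarith [one_sub_sq_div_two_le_cos (x := φ)]

lemma sin_pos' {φ : ℝ} (h0 : 0 < φ) (h1 : φ ≤ 1) : 0 < sin φ :=
  sin_pos_of_pos_of_lt_pi h0 (by linarith [pi_gt_three])

lemma der (l : ℝ) {φ : ℝ} (h0 : 0 < φ) (h1 : φ ≤ 1) :
    HasDerivAt (fun x => (π + 2 * x - l) / cos x) (sin φ * (D φ - l) / cos φ ^ 2) φ := by
  have c := cos_half h0 h1
  have s := sin_pos' h0 h1
  have h := ((((hasDerivAt_id φ).const_mul 2).const_add π).sub_const l).div (hasDerivAt_cos φ)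
    (by linarith)
  refine h.congr_deriv ?_
  unfold D
  simp only [id]
  field_simp
  ring

lemma D_cont {φ : ℝ} (h0 : 0 < φ) (h1 : φ ≤ 1) : ContinuousAt D φ := by
  have s := (sin_pos' h0 h1).ne'
  unfold D
  fun_prop (disch := assumption)

lemma phase {ε b : ℝ} (hε : 0 < ε) (hb : 0 < b) (hb1 : b < 1) : ∃ ψ ∈ Ioc 0 b, ∀ δ > 0, ∀ c,
    ∃ T, ∀ t ≥ T, ∃ k : ℕ, ∃ φ ∈ Icc ψ (ψ + δ), φ ≤ 1 ∧ 0 < k ∧ 2 * k * cos φ = t ∧
      ∃ m : ℤ, |k * (π + 2 * φ) - c - m * (2 * π)| ≤ ε := by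
  obtain ⟨N, hN⟩ := exists_nat_ge (|D b| / (2 * π))
  rw [div_le_iff₀ (by positivity)] at hN
  set X := N * (2 * π) + 3 * ε / 4 with hX
  have X0 : 0 < X := by positivity
  obtain ⟨ψ, hψ, e⟩ : ∃ ψ ∈ Ioc 0 b, D ψ = X := by
    have a0 : 0 < min b (1 / X) := by positivity
    have a1 := min_le_left b (1 / X)
    have a2 := min_le_right b (1 / X)
    generalize min b (1 / X) = a at *
    have : X ≤ D a := by
      have c := cos_half a0 (by linarith)
      have s := sin_pos' a0 (by linarith)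
      have s' := sin_le a0.le
      rw [le_div_iff₀ X0] at a2
      have : X ≤ 2 * cos a / sin a := by rw [le_div_iff₀ s]; nlinarith
      unfold D
      linarith [pi_pos]
    obtain ⟨ψ, h1, h2⟩ := intermediate_value_Icc' a1 (f := D) (fun x hx =>
      (D_cont (by linarith [hx.1]) (by linarith [hx.2])).continuousWithinAt)
      (show X ∈ _ from ⟨by linarith [le_abs_self (D b)], this⟩)
    exact ⟨ψ, ⟨by linarith [h1.1], h1.2⟩, h2⟩
  refine ⟨ψ, hψ, fun δ hδ c => ?_⟩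
  obtain ⟨η, η0, η1, η2, hη⟩ : ∃ η > 0, η ≤ δ ∧ ψ + η ≤ 1 ∧ ∀ x ∈ Icc ψ (ψ + η),
      |D x - X| ≤ ε / 4 := by
    obtain ⟨r, r0, hr⟩ := Metric.continuousAt_iff.1 (D_cont hψ.1 (by linarith [hψ.2])) (ε / 4)
      (by positivity)
    refine ⟨min (min δ (r / 2)) (1 - b), by have := sub_pos.2 hb1; positivity,
      (min_le_left _ _).trans (min_le_left _ _), by linarith [min_le_right (min δ (r / 2)) (1 - b),
      hψ.2], fun x hx => ?_⟩
    have := (min_le_left (min δ (r / 2)) (1 - b)).trans (min_le_right _ _)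
    rw [← e]
    exact (hr (by rw [Real.dist_eq, abs_lt]; constructor <;> linarith [hx.1, hx.2])).le
  have p0 : ∀ x ∈ Icc ψ (ψ + η), 0 < x ∧ x ≤ 1 := fun x hx =>
    ⟨hψ.1.trans_le hx.1, hx.2.trans η2⟩
  have cp : ∀ x ∈ Icc ψ (ψ + η), 0 < cos x := fun x hx => by
    linarith [cos_half (p0 x hx).1 (p0 x hx).2]
  have mono : MonotoneOn (fun x => (π + 2 * x - (N * (2 * π) + ε / 2)) / cos x) (Icc ψ (ψ + η)) :=
    monotoneOn_of_deriv_nonneg (convex_Icc _ _)
      (fun x hx => (der _ (p0 x hx).1 (p0 x hx).2).continuousAt.continuousWithinAt)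
      (fun x hx => (der _ (p0 x (interior_subset hx)).1
        (p0 x (interior_subset hx)).2).differentiableAt.differentiableWithinAt) fun x hx => by
      have hx := interior_subset hx
      rw [(der _ (p0 x hx).1 (p0 x hx).2).deriv]
      exact div_nonneg (mul_nonneg (sin_pos' (p0 x hx).1 (p0 x hx).2).le
        (by linarith [(abs_le.1 (hη x hx)).1])) (sq_nonneg _)
  have anti : AntitoneOn (fun x => (π + 2 * x - (N * (2 * π) + ε)) / cos x) (Icc ψ (ψ + η)) :=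
    antitoneOn_of_deriv_nonpos (convex_Icc _ _)
      (fun x hx => (der _ (p0 x hx).1 (p0 x hx).2).continuousAt.continuousWithinAt)
      (fun x hx => (der _ (p0 x (interior_subset hx)).1
        (p0 x (interior_subset hx)).2).differentiableAt.differentiableWithinAt) fun x hx => by
      have hx := interior_subset hx
      rw [(der _ (p0 x hx).1 (p0 x hx).2).deriv]
      exact div_nonpos_of_nonpos_of_nonneg (mul_nonpos_of_nonneg_of_nonpos
        (sin_pos' (p0 x hx).1 (p0 x hx).2).le (by linarith [(abs_le.1 (hη x hx)).2])) (sq_nonneg _)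
  have l0 : ψ ∈ Icc ψ (ψ + η) := left_mem_Icc.2 (by linarith)
  have r0 : ψ + η ∈ Icc ψ (ψ + η) := right_mem_Icc.2 (by linarith)
  have canti : ∀ x ∈ Icc ψ (ψ + η), ∀ y ∈ Icc ψ (ψ + η), x < y → cos y < cos x :=
    fun x hx y hy h => cos_lt_cos_of_nonneg_of_le_pi (p0 x hx).1.le
      (by linarith [(p0 y hy).2, pi_gt_three]) h
  have κ0 : 0 < 1 / cos (ψ + η) - 1 / cos ψ :=
    sub_pos.2 (one_div_lt_one_div_of_lt (cp _ r0) (canti _ l0 _ r0 (by linarith)))
  obtain ⟨M, hM⟩ := exists_nat_ge (2 * π / (ε / 2))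
  rw [div_le_iff₀ (by positivity)] at hM
  refine ⟨2 * (M + 1) / (1 / cos (ψ + η) - 1 / cos ψ), fun t ht => ?_⟩
  have t0 : 0 < t := lt_of_lt_of_le (by positivity) ht
  rw [ge_iff_le, div_le_iff₀ κ0] at ht
  set k := ⌈t / 2 * (1 / cos ψ)⌉₊ with hk
  have q0 : 0 < t / 2 * (1 / cos ψ) := by have := cp _ l0; positivity
  have k1 : t / 2 * (1 / cos ψ) ≤ k := Nat.le_ceil _
  have k2 : (k : ℝ) < t / 2 * (1 / cos ψ) + 1 := Nat.ceil_lt_add_one q0.le
  have ex : ∀ j : ℕ, ∃ φ ∈ Icc ψ (ψ + η), j ≤ M → t / 2 * (1 / cos φ) = k + j := fun j => by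
    by_cases hj : j ≤ M
    · have hj' : (j : ℝ) ≤ M := by exact_mod_cast hj
      obtain ⟨φ, h1, h2⟩ := intermediate_value_Icc (show ψ ≤ ψ + η by linarith)
        (f := fun φ => t / 2 * (1 / cos φ)) (continuousOn_const.mul (continuousOn_const.div
          continuous_cos.continuousOn fun x hx => (cp x hx).ne'))
        (show (k + j : ℝ) ∈ _ from ⟨by have : (0 : ℝ) ≤ j := j.cast_nonneg; linarith,
          by linarith⟩)
      exact ⟨φ, h1, fun _ => h2⟩
    · exact ⟨ψ, l0, fun h => absurd h hj⟩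
  choose φ hφ eφ using ex
  obtain ⟨j, hj, m, hm⟩ := walk (u := fun j => (k + j) * (π + 2 * φ j - N * (2 * π))) hε hM
    (fun j hj => by
      have a := eφ j hj.le
      have b := eφ (j + 1) hj
      have c1 := cp _ (hφ j)
      have c2 := cp _ (hφ (j + 1))
      have le : φ j ≤ φ (j + 1) := not_lt.1 fun h => by
        have := one_div_lt_one_div_of_lt c1 (canti _ (hφ _) _ (hφ _) h)
        push_cast at b
        nlinarith
      have x := mul_le_mul_of_nonneg_left (mono (hφ _) (hφ _) le) (half_pos t0).le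
      have y := mul_le_mul_of_nonneg_left (anti (hφ _) (hφ _) le) (half_pos t0).le
      beta_reduce at x y
      rw [div_eq_mul_one_div _ (cos (φ j)), div_eq_mul_one_div _ (cos (φ (j + 1))),
        mul_left_comm (t / 2), mul_left_comm (t / 2), a, b] at x y
      push_cast at *
      constructor <;> linarith) c
  have a := eφ j hj
  have c1 := cp _ (hφ j)
  refine ⟨k + j, φ j, ⟨(hφ j).1, by linarith [(hφ j).2]⟩, (p0 _ (hφ j)).2, ?_, ?_,
    m + (k + j) * N, ?_⟩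
  · have : 0 < k := by exact_mod_cast q0.trans_le k1
    omega
  · push_cast
    rw [← a]
    field_simp
  · refine le_of_eq_of_le ?_ hm
    push_cast
    ring_nf

section
variable (ι : ℂ →ₗ[ℝ] E) (hι : ∀ x y, inner ℝ (ι x) (ι y) = x.re * y.re + x.im * y.im)
include hι

lemma norm_ι (x : ℂ) : ‖ι x‖ = ‖x‖ := by
  rw [← sq_eq_sq₀ (norm_nonneg _) (norm_nonneg _), ← real_inner_self_eq_norm_sq, hι,
    Complex.sq_norm, Complex.normSq_apply]

lemma chord {h L : ℝ} (h0 : 0 < h) (hh : h ^ 2 + L ^ 2 = 1) {s : ℝ} (s1 : -h ≤ s) (s2 : s ≤ h)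
    (k : ℕ) : ∀ (v : ℂ) (a : ℝ), ‖v‖ = 1 → -h ≤ a → a < h → (k = 0 → a ≤ s) →
    Traj (ι (⟨a, L⟩ * v)) (ι v) (s - a + 2 * k * h) (ι (⟨s, L⟩ * (-(⟨h, L⟩ : ℂ) ^ 2) ^ k * v)) := by
  have mv : ∀ (v : ℂ) (a r : ℝ), ι (⟨a, L⟩ * v) + r • ι v = ι (⟨a + r, L⟩ * v) := fun v a r => by
    rw [← map_smul, ← map_add]
    congr 1
    apply Complex.ext <;> simp <;> ring
  have nm : ∀ (v : ℂ) (a : ℝ), ‖v‖ = 1 → ‖ι (⟨a, L⟩ * v)‖ ^ 2 = a ^ 2 + L ^ 2 := fun v a hv => by
    rw [norm_ι ι hι, norm_mul, hv, mul_one, Complex.sq_norm, Complex.normSq_apply]; ring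
  have ins : ∀ (v : ℂ) (a b : ℝ), ‖v‖ = 1 → -h ≤ a → b ≤ h →
      ∀ r ∈ Ioo 0 (b - a), ‖ι (⟨a, L⟩ * v) + r • ι v‖ < 1 := fun v a b hv a1 b1 r hr => by
    rw [mv, ← sq_lt_one_iff₀ (norm_nonneg _), nm _ _ hv]
    nlinarith [hr.1, hr.2]
  induction k with
  | zero =>
    intro v a hv a1 a2 a3
    have := Traj.free (ι (⟨a, L⟩ * v)) (ι v) (s - a) (sub_nonneg.2 (a3 rfl)) (ins v a s hv a1 s2)
      (by rw [mv, ← sq_le_one_iff₀ (norm_nonneg _), nm _ _ hv]; nlinarith)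
    rw [mv] at this
    simpa using this
  | succ k ih =>
    intro v a hv a1 a2 _
    have v2 : v.re ^ 2 + v.im ^ 2 = 1 := by
      have := Complex.sq_norm v
      rw [hv, Complex.normSq_apply] at this
      linarith
    have n1 : ‖(⟨h, L⟩ : ℂ)‖ = 1 := by
      rw [← sq_eq_sq₀ (norm_nonneg _) zero_le_one, Complex.sq_norm, Complex.normSq_apply]
      linarith
    have t := ih (-(⟨h, L⟩ : ℂ) ^ 2 * v) (-h) (by simp [n1, hv]) le_rfl (by linarith) fun _ => s1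
    have q : ι (⟨a, L⟩ * v) + (h - a) • ι v = ι (⟨h, L⟩ * v) := by rw [mv]; congr 3; ring
    have i : inner ℝ (ι v) (ι (⟨h, L⟩ * v)) = h := by
      rw [hι]; simp; linear_combination h * v2
    have e1 : (⟨-h, L⟩ : ℂ) * (-(⟨h, L⟩ : ℂ) ^ 2 * v) = ⟨h, L⟩ * v := by
      rw [← mul_assoc]
      congr 1
      apply Complex.ext <;> simp [pow_two]
      · linear_combination h * hh
      · linear_combination L * hh
    have e2 : ι (-(⟨h, L⟩ : ℂ) ^ 2 * v) = ι v - (2 * h) • ι (⟨h, L⟩ * v) := by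
      rw [← map_smul, ← map_sub]
      congr 1
      apply Complex.ext <;> simp [pow_two]
      · linear_combination v.re * hh
      · linear_combination v.im * hh
    rw [e1, e2] at t
    have := Traj.bounce (ι (⟨a, L⟩ * v)) (ι v) _ (h - a) _ (sub_pos.2 a2) (ins v a h hv a1 le_rfl)
      (by rw [q, norm_ι ι hι, norm_mul, n1, hv, mul_one]) (by rw [q, i]; exact h0.ne')
      (by rw [q, i]; exact t)
    have e3 : s - a + 2 * ((k + 1 : ℕ) : ℝ) * h = h - a + (s - -h + 2 * k * h) := by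
      push_cast; ring
    rw [e3, pow_succ _ k, ← mul_assoc, mul_assoc _ _ v]
    exact this

lemma plane {P z : ℂ} (P0 : P ≠ 0) (P1 : ‖P‖ < 1) (z0 : z ≠ 0) (z1 : ‖z‖ < 1) {ε : ℝ}
    (hε : 0 < ε) : ∃ T, ∀ t ≥ T, ∃ x, ι x ∈ Front (ι P) t ∧ ‖x - z‖ < ε := by
  have r0 := norm_pos_iff.2 P0
  have R0 := norm_pos_iff.2 z0
  obtain ⟨ψ, hψ, H⟩ := phase (ε := ε / 2) (b := min ‖P‖ ‖z‖ / 2) (by positivity) (by positivity)
    (by linarith [min_le_left ‖P‖ ‖z‖])
  have sψ : 0 ≤ sin ψ := (sin_pos' hψ.1 (by linarith [hψ.2, min_le_left ‖P‖ ‖z‖])).le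
  have s1 : sin ψ ^ 2 < ‖P‖ ^ 2 := pow_lt_pow_left₀
    (by linarith [sin_le hψ.1.le, hψ.2, min_le_left ‖P‖ ‖z‖]) sψ two_ne_zero
  have s2 : sin ψ ^ 2 < ‖z‖ ^ 2 := pow_lt_pow_left₀
    (by linarith [sin_le hψ.1.le, hψ.2, min_le_right ‖P‖ ‖z‖]) sψ two_ne_zero
  let a : ℝ → ℝ := fun φ => √(‖P‖ ^ 2 - sin φ ^ 2)
  let s : ℝ → ℝ := fun φ => √(‖z‖ ^ 2 - sin ψ ^ 2) + a φ - a ψ
  let v : ℝ → ℂ := fun φ => P / (a φ + sin φ * Complex.I)
  let W : ℝ → ℂ := fun φ => (s φ + sin φ * Complex.I) * v φ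
  have mk : ∀ x y : ℝ, (x + y * Complex.I : ℂ) = ⟨x, y⟩ := fun x y => by
    apply Complex.ext <;> simp
  have na : ∀ φ, sin φ ^ 2 < ‖P‖ ^ 2 → ‖(a φ + sin φ * Complex.I : ℂ)‖ = ‖P‖ := fun φ h => by
    rw [← sq_eq_sq₀ (norm_nonneg _) r0.le, mk, Complex.sq_norm, Complex.normSq_apply]
    have := sq_sqrt (sub_pos.2 h).le
    simp only [a]
    linarith
  have nv : ∀ φ, sin φ ^ 2 < ‖P‖ ^ 2 → ‖v φ‖ = 1 := fun φ h => by
    simp only [v]; rw [norm_div, na φ h, div_self r0.ne']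
  have nW : ‖W ψ‖ = ‖z‖ := by
    simp only [W]
    rw [norm_mul, nv ψ s1, mul_one, ← sq_eq_sq₀ (norm_nonneg _) R0.le, mk, Complex.sq_norm,
      Complex.normSq_apply]
    have := sq_sqrt (sub_pos.2 s2).le
    simp only [s, add_sub_cancel_right]
    linarith
  have cW : ContinuousAt W ψ := by
    have : (a ψ + sin ψ * Complex.I : ℂ) ≠ 0 := by rw [← norm_pos_iff, na ψ s1]; exact r0
    simp only [W, v, s, a] at this ⊢
    fun_prop (disch := assumption)
  have ev : ∀ᶠ φ in 𝓝 ψ, sin φ ^ 2 < ‖P‖ ^ 2 ∧ ‖W φ‖ < 1 ∧ ‖W φ - W ψ‖ < ε / 2 :=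
    ((by fun_prop : Continuous fun φ => sin φ ^ 2).continuousAt.eventually_lt continuousAt_const
      s1).and ((cW.norm.eventually_lt continuousAt_const (nW ▸ z1)).and
      ((cW.sub continuousAt_const).norm.eventually_lt continuousAt_const
        (by show ‖W ψ - W ψ‖ < _; rw [sub_self, norm_zero]; positivity)))
  obtain ⟨δ, δ0, hδ⟩ := Metric.eventually_nhds_iff.1 ev
  have W0 : W ψ ≠ 0 := by rw [← norm_pos_iff, nW]; exact R0
  obtain ⟨T, hT⟩ := H (δ / 2) (by positivity) (Complex.arg (z / W ψ))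
  refine ⟨T + s ψ - a ψ, fun t ht => ?_⟩
  obtain ⟨k, φ, hφ, φ1, k0, e, m, hm⟩ := hT (t + a ψ - s ψ) (by linarith)
  obtain ⟨b1, b2, b3⟩ := hδ (y := φ) (by
    rw [Real.dist_eq, abs_lt]; constructor <;> linarith [hφ.1, hφ.2])
  have c := cos_half (hψ.1.trans_le hφ.1) φ1
  have sc := cos_sq_add_sin_sq φ
  have sW : s φ ^ 2 < cos φ ^ 2 := by
    simp only [W] at b2
    rw [norm_mul, nv φ b1, mul_one, ← sq_lt_one_iff₀ (norm_nonneg _), mk, Complex.sq_norm,
      Complex.normSq_apply] at b2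
    simp only at b2
    linarith
  have sW' := abs_lt_of_sq_lt_sq' sW (by linarith)
  have a0 : 0 ≤ a φ := sqrt_nonneg _
  have tr := chord ι hι (h := cos φ) (L := sin φ) (by linarith) sc sW'.1.le sW'.2.le k (v φ) (a φ)
    (nv φ b1) (by linarith) (sqrt_lt' (by linarith) |>.2 (by nlinarith)) (by omega)
  have e1 : (⟨a φ, sin φ⟩ : ℂ) * v φ = P := by
    rw [← mk]
    exact mul_div_cancel₀ _ (by rw [← norm_pos_iff, na φ b1]; exact r0)
  have e2 : s φ - a φ + 2 * k * cos φ = t := by rw [e]; simp only [s]; ring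
  have e3 : (-(⟨cos φ, sin φ⟩ : ℂ) ^ 2) ^ k = Complex.exp ((k * (π + 2 * φ) : ℝ) * Complex.I) := by
    rw [← mk, Complex.ofReal_cos, Complex.ofReal_sin, ← Complex.exp_mul_I, ← neg_one_mul,
      ← Complex.exp_pi_mul_I, ← Complex.exp_nat_mul, ← Complex.exp_add, ← Complex.exp_nat_mul]
    congr 1
    push_cast
    ring
  rw [e1, e2, e3] at tr
  refine ⟨_, ⟨_, by rw [norm_ι ι hι, nv φ b1], tr⟩, ?_⟩
  set θ := k * (π + 2 * φ)
  set γ := Complex.arg (z / W ψ)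
  have e4 : z = W ψ * Complex.exp (γ * Complex.I) := by
    have := Complex.norm_mul_exp_arg_mul_I (z / W ψ)
    rw [norm_div, nW, div_self R0.ne', Complex.ofReal_one, one_mul] at this
    rw [this, mul_div_cancel₀ _ W0]
  have e5 : Complex.exp (θ * Complex.I) = Complex.exp (γ * Complex.I) *
      Complex.exp (Complex.I * (θ - γ - m * (2 * π) : ℝ)) := by
    rw [← Complex.exp_add, ← Complex.exp_periodic.sub_int_mul_eq m]
    congr 1
    push_cast
    ring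
  have e6 : (⟨s φ, sin φ⟩ : ℂ) * Complex.exp (θ * Complex.I) * v φ - z =
      (W φ - W ψ) * Complex.exp (θ * Complex.I) + z *
        (Complex.exp (Complex.I * (θ - γ - m * (2 * π) : ℝ)) - 1) := by
    have e7 : W φ = (s φ + sin φ * Complex.I) * v φ := rfl
    rw [← mk]
    linear_combination W ψ * e5 - Complex.exp (θ * Complex.I) * e7 -
      Complex.exp (Complex.I * (θ - γ - m * (2 * π) : ℝ)) * e4
  rw [e6]
  refine (norm_add_le _ _).trans_lt ?_
  rw [norm_mul, norm_mul, Complex.norm_exp_ofReal_mul_I, mul_one]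
  have := Real.norm_exp_I_mul_ofReal_sub_one_le (x := θ - γ - m * (2 * π))
  rw [Real.norm_eq_abs] at this
  nlinarith [norm_nonneg (Complex.exp (Complex.I * (θ - γ - m * (2 * π) : ℝ)) - 1)]

end

lemma ball (h2 : 2 ≤ Module.rank ℝ E) {P : E} (P0 : P ≠ 0) (P1 : ‖P‖ < 1) : BecomesDense P := by
  intro U hU hne hs
  obtain ⟨z, zU, hz⟩ : ∃ z ∈ U, z ∉ Submodule.span ℝ {P} := by
    by_contra! h
    have := Submodule.eq_top_of_nonempty_interior' (Submodule.span ℝ {P})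
      (hne.mono (interior_maximal h hU))
    have r := rank_span_le (R := ℝ) ({P} : Set E)
    rw [this, rank_top, Cardinal.mk_singleton] at r
    exact absurd (h2.trans r) (by norm_num)
  have r0 := norm_pos_iff.2 P0
  set e₁ := ‖P‖⁻¹ • P with he₁
  have n1 : inner ℝ e₁ e₁ = 1 := by
    rw [real_inner_self_eq_norm_sq, he₁, norm_smul, norm_inv, norm_norm,
      inv_mul_cancel₀ r0.ne', one_pow]
  set w := z - inner ℝ e₁ z • e₁ with hw
  have w0 : w ≠ 0 := fun h => hz (by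
    rw [sub_eq_zero.1 h]
    exact Submodule.smul_mem _ _ (Submodule.smul_mem _ _ (Submodule.mem_span_singleton_self _)))
  have q0 := norm_pos_iff.2 w0
  set e₂ := ‖w‖⁻¹ • w with he₂
  have n2 : inner ℝ e₂ e₂ = 1 := by
    rw [real_inner_self_eq_norm_sq, he₂, norm_smul, norm_inv, norm_norm,
      inv_mul_cancel₀ q0.ne', one_pow]
  have n3 : inner ℝ e₁ e₂ = 0 := by
    rw [he₂, inner_smul_right, hw, inner_sub_right, inner_smul_right, n1]; ring
  let ι : ℂ →ₗ[ℝ] E := Complex.reLm.smulRight e₁ + Complex.imLm.smulRight e₂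
  have ap : ∀ x, ι x = x.re • e₁ + x.im • e₂ := fun x => rfl
  have hι : ∀ x y, inner ℝ (ι x) (ι y) = x.re * y.re + x.im * y.im := fun x y => by
    simp only [ap, inner_add_left, inner_add_right, real_inner_smul_left, real_inner_smul_right,
      n1, n2, n3, real_inner_comm e₁ e₂]
    ring
  have eP : ι ‖P‖ = P := by simp [ap, he₁, smul_smul, r0.ne']
  have ez : ι ⟨inner ℝ e₁ z, ‖w‖⟩ = z := by
    show inner ℝ e₁ z • e₁ + ‖w‖ • ‖w‖⁻¹ • w = z
    rw [smul_inv_smul₀ q0.ne', hw, add_sub_cancel]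
  obtain ⟨ε, ε0, hε⟩ := Metric.isOpen_iff.1 hU z zU
  obtain ⟨T, hT⟩ := plane ι hι (P := ‖P‖) (z := ⟨inner ℝ e₁ z, ‖w‖⟩) (by simpa using P0)
    (by simpa using P1) (fun h => q0.ne' (congrArg Complex.im h))
    (by rw [← norm_ι ι hι, ez]; simpa using hs zU) ε0
  refine ⟨T, fun t ht => ?_⟩
  obtain ⟨x, h1, h3⟩ := hT t ht
  refine ⟨ι x, eP ▸ h1, hε ?_⟩
  rw [mem_ball_iff_norm, ← ez, ← map_sub, norm_ι ι hι]
  exact h3

theorem result (n : ℕ) (hn : 2 ≤ n) :
    (∀ P : EuclideanSpace ℝ (Fin n), ‖P‖ < 1 → P ≠ 0 → BecomesDense P) ∧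
      ∀ᵐ P : EuclideanSpace ℝ (Fin n), P ∈ Metric.ball 0 1 → BecomesDense P := by
  have h : ∀ P : EuclideanSpace ℝ (Fin n), ‖P‖ < 1 → P ≠ 0 → BecomesDense P := fun P a b =>
    ball (by rw [← Module.finrank_eq_rank, finrank_euclideanSpace_fin]; exact_mod_cast hn) b a
  refine ⟨h, ?_⟩
  have : Nonempty (Fin n) := ⟨⟨0, by omega⟩⟩
  filter_upwards [Measure.ae_ne volume 0] with P a b using h P (by simpa using b) a

end Pool.Agent.Results.MP_67b65f_an.Ball
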